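import Pool.Agent.Helper12.MA.StA
import Pool.Agent.Helper12.MA.Lib

set_option autoImplicit false

namespace Pool.Agent.Helper22.MA

open Pool.Agent.Helper12.MA
open Pool.Agent.Helper51.AJ (IsMinor Planar Apex ExMinor Con Tch)
open Pool.Agent.Helper12.NK (rst Kc add cnt Pcy IsFace Cof plus)

variable {V : Type}

private theorem mk_inl {M : SimpleGraph V} {U A : Set V} {T : Set (Set V)} {a : V} :
    (Sum.inl a : V ⊕ {F : Set V // IsFace M U F}) ∈ mk M U A T ↔ a ∈ A := by
  constructor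
  · rintro (⟨b, hb, h⟩ | ⟨F, _, h⟩)
    · rw [Sum.inl.inj h]
      exact hb
    · exact absurd h (by simp)
  · intro h
    exact Or.inl ⟨a, h, rfl⟩

private theorem mk_inr {M : SimpleGraph V} {U A : Set V} {T : Set (Set V)} {F : {F : Set V // IsFace M U F}} :
    (Sum.inr F : V ⊕ {F : Set V // IsFace M U F}) ∈ mk M U A T ↔ F.1 ∈ T := by
  constructor
  · rintro (⟨b, _, h⟩ | ⟨F', hF', h⟩)
    · exact absurd h (by simp)
    · rw [Sum.inr.inj h]
      exact hF'
  · intro h
    exact Or.inr ⟨F, h, rfl⟩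

private theorem mk_union (M : SimpleGraph V) (U A B : Set V) (T S : Set (Set V)) :
    mk M U (A ∪ B) (T ∪ S) = mk M U A T ∪ mk M U B S := by
  ext x
  rcases x with x | x
  · rw [Set.mem_union, mk_inl, mk_inl, mk_inl, Set.mem_union]
  · rw [Set.mem_union, mk_inr, mk_inr, mk_inr, Set.mem_union]

private theorem mk_disj {M : SimpleGraph V} {U A B : Set V} {T S : Set (Set V)} (h : Disjoint A B) (h' : Disjoint T S) :
    Disjoint (mk M U A T) (mk M U B S) := by
  rw [Set.disjoint_left] at h h' ⊢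
  intro x hx hx'
  rcases x with x | x
  · rw [mk_inl] at hx hx'
    exact h hx hx'
  · rw [mk_inr] at hx hx'
    exact h' hx hx'

private theorem pt_tch {M : SimpleGraph V} {U A B : Set V} {T S : Set (Set V)} (h : PT M U A T B S) :
    Tch (plus M U) (mk M U A T) (mk M U B S) := by
  rcases h with ⟨a, ha, b, hb, haU, hbU, hab⟩ | ⟨a, ha, F, hF, hf, haF⟩ | ⟨F, hF, b, hb, hf, hbF⟩
  · exact ⟨Sum.inl a, mk_inl.2 ha, Sum.inl b, mk_inl.2 hb, ⟨hab, haU, hbU⟩⟩
  · exact ⟨Sum.inl a, mk_inl.2 ha, Sum.inr ⟨F, hf⟩, mk_inr.2 hF, haF⟩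
  · exact ⟨Sum.inr ⟨F, hf⟩, mk_inr.2 hF, Sum.inl b, mk_inl.2 hb, hbF⟩

private theorem tsym {W : Type} {B : SimpleGraph W} {S T : Set W} (h : Tch B S T) : Tch B T S := by
  obtain ⟨x, hx, y, hy, hxy⟩ := h
  exact ⟨y, hy, x, hx, hxy.symm⟩

private theorem pc1 (M : SimpleGraph V) (U A : Set V) (hA : A ⊆ U) (h : Con M A) : PC M U A ∅ := by
  unfold PC Pool.Agent.Helper51.AJ.Con at *
  let f : M.induce A →g (plus M U).induce (mk M U A ∅) :=
    { toFun := fun a => ⟨Sum.inl a.1, mk_inl.2 a.2⟩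
      map_rel' := by
        intro a b hab
        exact ⟨hab, hA a.2, hA b.2⟩ }
  have hsurj : Function.Surjective f := by
    rintro ⟨x, hx⟩
    rcases x with x | x
    · rw [mk_inl] at hx
      exact ⟨⟨x, hx⟩, rfl⟩
    · rw [mk_inr] at hx
      exact absurd hx (by simp)
  refine (SimpleGraph.connected_iff _).2 ⟨?_, ?_⟩
  · intro x y
    obtain ⟨a, rfl⟩ := hsurj x
    obtain ⟨b, rfl⟩ := hsurj y
    exact (h.preconnected a b).map f
  · obtain ⟨a⟩ := h.nonempty
    exact ⟨f a⟩

private theorem pc4 (M : SimpleGraph V) (U : Set V) (x : V) (T : Set (Set V)) (hT : ∀ F ∈ T, x ∈ F) :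
    PC M U {x} T := by
  unfold PC Pool.Agent.Helper51.AJ.Con
  have hx : (Sum.inl x : V ⊕ {F : Set V // IsFace M U F}) ∈ mk M U {x} T := mk_inl.2 rfl
  have key : ∀ y : mk M U {x} T, ((plus M U).induce (mk M U {x} T)).Reachable ⟨Sum.inl x, hx⟩ y := by
    rintro ⟨y, hy⟩
    rcases y with y | y
    · rw [mk_inl] at hy
      have hyx : y = x := hy
      subst hyx
      exact SimpleGraph.Reachable.refl _
    · have hy' := mk_inr.1 hy
      refine SimpleGraph.Adj.reachable ?_
      show x ∈ y.1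
      exact hT _ hy'
  refine (SimpleGraph.connected_iff _).2 ⟨?_, ⟨⟨Sum.inl x, hx⟩⟩⟩
  intro a b
  exact (key a).symm.trans (key b)

theorem hPCL : StPCL := by
  intro V _ M U
  refine ⟨fun A hA h => pc1 M U A hA h, ?_, ?_, fun x T _ hT => pc4 M U x T hT, ?_, ?_⟩
  · intro F hF
    unfold PC
    have e : mk M U ∅ {F} = {Sum.inr ⟨F, hF⟩} := by
      ext x
      rcases x with x | x
      · rw [mk_inl]
        simp
      · rw [mk_inr]
        simp [Subtype.ext_iff]
    rw [e]
    exact Pool.Agent.Helper51.AJ.con_singleton _ _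
  · intro A B T S hA hB h
    unfold PC at *
    rw [mk_union]
    exact Pool.Agent.Helper51.AJ.con_union hA hB (pt_tch h)
  · intro hP A T hc hA hT hpt
    refine ((nMNR _ (plus M U) (nPLS V M U hP.1 hP.2)).1 (fun i => mk M U (A i) (T i)) hc
      (fun i j hij => mk_disj (hA i j hij) (hT i j hij)) ?_)
    intro i j hij
    rcases lt_or_gt_of_ne hij with h | h
    · exact pt_tch (hpt i j h)
    · exact tsym (pt_tch (hpt j i h))
  · intro hP A B T S hA hB hAd hBd hAB hTd hSd hTS hpt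
    exact ((nMNR _ (plus M U) (nPLS V M U hP.1 hP.2)).2 (fun i => mk M U (A i) (T i))
      (fun i => mk M U (B i) (S i)) hA hB
      (fun i j hij => mk_disj (hAd i j hij) (hTd i j hij))
      (fun i j hij => mk_disj (hBd i j hij) (hSd i j hij))
      (fun i j => mk_disj (hAB i j) (hTS i j))
      (fun i j => pt_tch (hpt i j)))

end Pool.Agent.Helper22.MA
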