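import Pool.Agent.Helper12.MA.StD
import Pool.Agent.Helper12.MA.Lib
import Pool.Agent.Helper11.AJ.M_JNM
import Pool.Agent.Helper44.AJ.M_TRN
import Pool.Agent.Helper51.AJ.M_FNA

set_option autoImplicit false

namespace Pool.Agent.Helper22.MA

open Pool.Agent.Helper12.MA
open Pool.Agent.Helper51.AJ (IsMinor Planar Apex ExMinor Con Tch E4 isMinor_of_hom)
open Pool.Agent.Helper12.NK (rst Kc add cnt Pcy IsFace Cof plus)

/-- the relation in the definition of `W8` -/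
private def r8 (a b : Fin 8) : Prop :=
  (a.val ≤ 1 ∧ 2 ≤ b.val) ∨ (a.val = 2 ∧ b.val = 3) ∨ (a.val = 2 ∧ b.val = 4) ∨ (a.val = 3 ∧ b.val = 4) ∨
    (a.val = 5 ∧ b.val = 6) ∨ (a.val = 5 ∧ b.val = 7) ∨ (a.val = 6 ∧ b.val = 7) ∨ (2 ≤ a.val ∧ b.val = a.val + 3)

private instance : DecidableRel r8 := fun a b => by
  unfold r8
  infer_instance

private theorem adj8 (a b : Fin 8) : W8.Adj a b ↔ a ≠ b ∧ (r8 a b ∨ r8 b a) := Iff.rfl

private instance : DecidableRel W8.Adj := fun a b => decidable_of_iff _ (adj8 a b).symm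

/-- the vertices of `E4` as vertices of `W8` -/
private def f8 : Fin 2 ⊕ (Fin 3 × Fin 2) → Fin 8
  | Sum.inl i => ⟨i.val, by omega⟩
  | Sum.inr p => ⟨2 + p.1.val + 3 * p.2.val, by omega⟩

theorem hCVN : StCVN := by
  intro h
  have h1 := Pool.Agent.Helper44.AJ.hTRN
  have h2 := Pool.Agent.Helper11.AJ.hJNM h1
  have h3 := (Pool.Agent.Helper51.AJ.hFNA h1 h2).2.1.2.2.2
  have h4 : IsMinor E4 W8 := isMinor_of_hom f8 (by decide +kernel) (by decide +kernel)
  exact h3 (h2.2.1 _ _ _ _ h4 h)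

end Pool.Agent.Helper22.MA
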